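import Pool.Agent.TNL.Net
import Pool.Agent.TNL.Sum
import Pool.Agent.Rog.Main

/-!
# Every convex body is covered by `188 n 2 ^ n` translates of the interior of its symmetrisation
-/

set_option autoImplicit false

open MeasureTheory Set
open scoped Pointwise

namespace Pool.Agent.TNL

open Pool.Agent.Rog

/-- The covering probability. -/
lemma condp {n : ℕ} {K : Set (E n)} (hK : GB K) {x : E n} {q : ℝ} (hx : x ∈ K) (hq0 : 0 ≤ q)
    (hq1 : q ≤ 1) : q ^ n * cov K x ≤ volume.real (K ∩ {z | x - z ∈ q • D K}) := by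
  have hsub : (fun y => q • y + (1 - q) • x) '' (K ∩ {z | z - x ∈ D K}) ⊆
      K ∩ {z | x - z ∈ q • D K} := by
    rintro _ ⟨y, ⟨hy, hy2⟩, rfl⟩
    refine ⟨hK.cvx hy hx hq0 (by linarith) (by ring), ?_⟩
    refine ⟨-(y - x), D_symm hy2, ?_⟩
    change q • (-(y - x)) = x - (q • y + (1 - q) • x)
    module
  have hfin : volume (K ∩ {z | x - z ∈ q • D K}) ≠ ⊤ :=
    ne_top_of_le_ne_top hK.cpt.measure_lt_top.ne (measure_mono inter_subset_left)
  have him : (fun y => q • y + (1 - q) • x) '' (K ∩ {z | z - x ∈ D K}) =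
      (fun z => z + (1 - q) • x) '' (q • (K ∩ {z | z - x ∈ D K})) := by
    rw [← image_smul, image_image]
  have hvol : volume.real ((fun y => q • y + (1 - q) • x) '' (K ∩ {z | z - x ∈ D K})) =
      q ^ n * cov K x := by
    rw [him, cov, Measure.real, Measure.real, image_add_right, measure_preimage_add_right,
      Measure.addHaar_smul]
    simp only [finrank_euclideanSpace_fin]
    rw [ENNReal.toReal_mul, ENNReal.toReal_ofReal (abs_nonneg _), abs_of_nonneg (pow_nonneg hq0 n)]
  rw [← hvol]
  exact measureReal_mono hsub hfin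

/-- The covering theorem for bodies with a large symmetric part. -/
theorem cover_HB (n : ℕ) (K : Set (E n)) (hn : 1 ≤ n) (hKH : HB K) :
    ∃ (T : Finset (E n)) (c : ℝ), T.card ≤ 188 * n * 2 ^ n ∧ 0 ≤ c ∧ c < 1 ∧
      ∀ y ∈ K, ∃ t ∈ T, y - t ∈ c • D K := by
  classical
  have hK : GB K := hKH.toGB
  obtain ⟨hSM, hw, hwv, -⟩ := t_SYB n K hK
  obtain ⟨hvol, hρ0, hmac0, hW0, hmac, -, -, hW1⟩ := t_WCG n K hn hK
  have hρh := hKH.half
  set v := volume.real K with hv
  set w := volume.real (sy K) with hwdef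
  set ρ := W K 0 with hρ
  have hρn : w = v * ρ ^ n := by
    rw [← hmac0]
    exact hmac 0
  have hvw : v ≤ 2 ^ n * w := by
    rw [hρn]
    have h1 : (1 / 2 : ℝ) ^ n ≤ ρ ^ n := pow_le_pow_left₀ (by norm_num) hρh n
    have h2 : 1 ≤ 2 ^ n * ρ ^ n := by
      calc (1 : ℝ) = 2 ^ n * (1 / 2) ^ n := by rw [← mul_pow]; norm_num
        _ ≤ 2 ^ n * ρ ^ n := by gcongr
    nlinarith
  have hsub : ∀ k, k ∈ sy K → k ∈ D K := fun k hk => sy_D hk
  rcases Nat.eq_or_lt_of_le hn with h1 | h2
  · -- dimension one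
    obtain ⟨X, hXK, hXs, hXn⟩ := t_MAXB n (sy K) K (1 / 2) hSM hK.cpt.isBounded (by norm_num)
    have hcard := t_PACKK n K X (1 / 2) hK (by norm_num) hXK hXs
    refine ⟨X, 1 / 2, ?_, by norm_num, by norm_num, ?_⟩
    · have h2 : ((2 + (1 : ℝ) / 2) / (1 / 2)) ^ n = 5 := by rw [← h1]; norm_num
      rw [h2] at hcard
      have h3 : (2 : ℝ) ^ n = 2 := by rw [← h1]; norm_num
      rw [h3] at hvw
      have h4 : (X.card : ℝ) ≤ 10 := by
        have h5 : (X.card : ℝ) * w ≤ 10 * w := by linarith
        exact le_of_mul_le_mul_right h5 hw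
      have h5 : X.card ≤ 10 := by exact_mod_cast h4
      have h6 : 188 * 1 * 1 ≤ 188 * n * 2 ^ n :=
        Nat.mul_le_mul (Nat.mul_le_mul le_rfl hn) Nat.one_le_two_pow
      omega
    · intro z hz
      obtain ⟨x, hx, k, hk, hkz⟩ := hXn z hz
      exact ⟨x, hx, k, hsub k hk, hkz⟩
  · have hn2 : 2 ≤ n := h2
    have hn' : (2 : ℝ) ≤ n := by exact_mod_cast hn2
    have hn0 : (0 : ℝ) < n := by linarith
    obtain ⟨X, hXK, hXs, hXn⟩ := t_MAXB n (sy K) K (1 / (2 * n)) hSM hK.cpt.isBounded
      (by positivity)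
    have hcard : (X.card : ℝ) ≤ (10 * n) ^ n := by
      have h3 := t_PACKK n K X (1 / (2 * n)) hK (by positivity) hXK hXs
      have h4 : (2 + 1 / (2 * (n : ℝ))) / (1 / (2 * n)) = 4 * n + 1 := by
        field_simp
        ring
      rw [h4] at h3
      have h5 : (4 * (n : ℝ) + 1) ^ n ≤ (5 * n) ^ n := by
        gcongr
        linarith
      have h6 : (10 * (n : ℝ)) ^ n = (5 * n) ^ n * 2 ^ n := by
        rw [← mul_pow]
        congr 1
        ring
      have h7 : (X.card : ℝ) * w ≤ (10 * n) ^ n * w := by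
        rw [h6, mul_assoc]
        refine h3.trans ?_
        gcongr
      exact le_of_mul_le_mul_right h7 hw
    have hsum := sum_lt n X (fun x => U K x) hn
      (fun x hx => ⟨half_le_U t_BMI hn hK (hXK x hx), U_le_one hK x⟩) (by
        intro t Y hY ht hu
        rcases le_total t (1 / 2) with h | h
        · refine net_card t_PACK t_MAXB t_SYB ?_ Y hn hK (fun x hx => ⟨hXK x (hY hx), hu x hx⟩)
            (fun x hx y hy hxy => hXs x (hY hx) y (hY hy) hxy) ht
          intro Z hZ1 hZ2
          exact count t_BMI t_WCG t_CAPVG t_SYB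
            (fun n K x t hn hKH hx h1 h2 h3 => dcap_big t_BMI t_WCG t_SYB bourgain_milman
              santalo_weak t_DIFF t_POLB t_POLD t_SHELLG t_PEELG hn hKH hx h1 h2 h3)
            n K t Z hn hKH ht h hZ1 hZ2
        · have h3 : (Y.card : ℝ) ≤ X.card := by exact_mod_cast Finset.card_le_card hY
          refine h3.trans (hcard.trans ?_)
          have h4 := four_le_d3
          have h5 : 10 * (n : ℝ) ≤ 5 * d3 * n * t := by
            have h6 : 2 ≤ d3 * t := by nlinarith
            nlinarith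
          have h6 : (10 * (n : ℝ)) ^ n ≤ (5 * d3 * n * t) ^ n := by gcongr
          have h7 : (0 : ℝ) ≤ (5 * d3 * n * t) ^ n := le_trans (by positivity) h6
          linarith)
    have hq := FING_.quarter n hn2
    have h1n : (1 : ℝ) / n ≤ 1 / 2 := one_div_le_one_div_of_le (by norm_num) hn'
    have h1n0 : (0 : ℝ) < 1 / n := by positivity
    obtain ⟨z, Y, hzK, hYX, hz, hYc⟩ := p_DERG n (188 * n * 2 ^ n) K X
      (fun x => {z | x - z ∈ (1 - 1 / (n : ℝ)) • D K})
      (fun x => U K x ^ n / 4) hK.cpt hvol (by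
        intro x hx
        have hu0 : 0 ≤ U K x := U_nonneg K x
        have hu1 : U K x ≤ 1 := U_le_one hK x
        have hp0 : 0 ≤ U K x ^ n := pow_nonneg hu0 n
        have hp1 : U K x ^ n ≤ 1 := pow_le_one₀ hu0 hu1
        refine ⟨?_, by positivity, by linarith, ?_⟩
        · have hcl : IsClosed ((1 - 1 / (n : ℝ)) • D K) := ((D_cpt hK).smul _).isClosed
          exact (hcl.preimage (continuous_const.sub continuous_id)).measurableSet
        · refine le_trans ?_ (condp hK (hXK x hx) (q := 1 - 1 / (n : ℝ)) (by linarith)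
            (by linarith))
          rw [cov_eq hn hK]
          have h6 : 0 ≤ volume.real K * U K x ^ n := by positivity
          nlinarith [mul_le_mul_of_nonneg_right hq h6])
    have hY0 : Y = ∅ := by
      rw [← Finset.card_eq_zero]
      have h3 : (Y.card : ℝ) < 1 := lt_of_le_of_lt hYc hsum
      have h4 : Y.card < 1 := by exact_mod_cast h3
      omega
    refine ⟨Finset.univ.image z, 1 / (2 * (n : ℝ)) + (1 - 1 / (n : ℝ)), ?_, ?_, ?_, ?_⟩
    · refine Finset.card_image_le.trans ?_
      simp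
    · have : (0 : ℝ) < 1 / (2 * (n : ℝ)) := by positivity
      linarith
    · have h8 : (1 : ℝ) / (2 * (n : ℝ)) = (1 / (n : ℝ)) / 2 := by field_simp
      rw [h8]
      linarith
    · intro y hy
      obtain ⟨x, hx, k, hk, hkz⟩ := hXn y hy
      obtain ⟨i, k', hk', hkz'⟩ := hz x hx (by rw [hY0]; exact Finset.notMem_empty x)
      refine ⟨z i, Finset.mem_image_of_mem _ (Finset.mem_univ _), ?_⟩
      rw [(D_cvx hK).add_smul (by positivity) (by linarith)]
      have : y - z i = (y - x) + (x - z i) := by abel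
      rw [this]
      exact Set.add_mem_add ⟨k, hsub k hk, hkz⟩ ⟨k', hk', hkz'⟩

/-- **The covering theorem.**  Every convex body `K` of `ℝ ^ n` is covered by `188 n 2 ^ n`
translates of `c (K - K) / 2`, for some `c < 1`. -/
theorem cover (n : ℕ) (K : Set (E n)) (hn : 1 ≤ n) (hc : IsCompact K) (hK : Convex ℝ K)
    (hne : (interior K).Nonempty) :
    ∃ (T : Finset (E n)) (c : ℝ), T.card ≤ 188 * n * 2 ^ n ∧ 0 ≤ c ∧ c < 1 ∧
      ∀ y ∈ K, ∃ t ∈ T, y - t ∈ c • D K := by
  classical
  obtain ⟨c', -, hc'⟩ := FracH.centre hK hc hne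
  rw [finrank_euclideanSpace_fin] at hc'
  change volume.real K ≤ 2 ^ n * volume.real (ALL_.S K c') at hc'
  have hvK : 0 < volume.real K := by
    unfold Measure.real
    refine ENNReal.toReal_pos ?_ hc.measure_lt_top.ne
    exact (Measure.measure_pos_of_nonempty_interior _ hne).ne'
  have hv : 0 < volume.real (ALL_.S K c') := by
    by_contra hcon
    push Not at hcon
    have h1 : (0 : ℝ) < 2 ^ n := by positivity
    nlinarith
  have hcK := ALL_.center_mem hK c' hv
  set K' : Set (E n) := (fun y => y + -c') '' K with hK'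
  have hint : interior K' = (fun y => y + -c') '' interior K := by
    have := (Homeomorph.addRight (-c')).image_interior K
    rw [hK']
    simpa using this.symm
  have hGB : GB K' := by
    refine ⟨hc.image (by fun_prop), ?_, ?_⟩
    · have := hK.translate (-c')
      have e : (fun y => y + -c') '' K = (fun x => -c' + x) '' K := by
        ext x; simp [add_comm]
      rw [hK', e]
      exact this
    · rw [hint]
      exact ⟨c', hcK, by simp⟩
  have hvolK : volume.real K' = volume.real K := by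
    rw [hK', measureReal_def, measureReal_def, image_add_right, measure_preimage_add_right]
  have hsy : sy K' = (fun y => y + -c') '' (ALL_.S K c') := by
    ext x
    unfold sy
    simp only [hK', image_add_right, neg_neg, mem_inter_iff, mem_preimage, Set.mem_neg]
    rw [ALL_.mem_S]
    have e : -x + c' = (2 : ℝ) • c' - (x + c') := by rw [two_smul]; abel
    rw [e]
  have hvolS : volume.real (sy K') = volume.real (ALL_.S K c') := by
    rw [hsy, measureReal_def, measureReal_def, image_add_right, measure_preimage_add_right]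
  have hHB : HB K' := by
    refine ⟨hGB, ?_⟩
    obtain ⟨h1, h2, h3, -, h5, -⟩ := t_WCG n K' hn hGB
    by_contra hcon
    push Not at hcon
    have h6 : W K' 0 ^ n < (1 / 2) ^ n := pow_lt_pow_left₀ hcon h2.le (by omega)
    have h7 := h5 0
    rw [h3, hvolS, hvolK] at h7
    rw [h7] at hc'
    have h8 : 2 ^ n * (volume.real K * W K' 0 ^ n) <
        2 ^ n * (volume.real K * (1 / 2) ^ n) := by gcongr
    have h9 : 2 ^ n * (volume.real K * (1 / 2) ^ n) = volume.real K := by
      have : (2 : ℝ) ^ n * (1 / 2) ^ n = 1 := by rw [← mul_pow]; norm_num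
      calc 2 ^ n * (volume.real K * (1 / 2) ^ n) =
          volume.real K * ((2 : ℝ) ^ n * (1 / 2) ^ n) := by ring
        _ = _ := by rw [this, mul_one]
    linarith
  have hDD : D K' = D K := by
    ext z
    rw [mem_D, mem_D]
    constructor
    · rintro ⟨_, ⟨a, ha, rfl⟩, _, ⟨b, hb, rfl⟩, h⟩
      refine ⟨a, ha, b, hb, ?_⟩
      rw [h]
      change a + -c' - (b + -c') = a - b
      abel
    · rintro ⟨a, ha, b, hb, h⟩
      refine ⟨a + -c', ⟨a, ha, rfl⟩, b + -c', ⟨b, hb, rfl⟩, ?_⟩
      rw [h]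
      change a - b = a + -c' - (b + -c')
      abel
  obtain ⟨T, c, hT, hc0, hc1, hTc⟩ := cover_HB n K' hn hHB
  refine ⟨T.image (fun t => t + c'), c, Finset.card_image_le.trans hT, hc0, hc1, fun y hy => ?_⟩
  obtain ⟨t, ht, hyt⟩ := hTc (y + -c') ⟨y, hy, rfl⟩
  refine ⟨t + c', Finset.mem_image_of_mem _ ht, ?_⟩
  rw [hDD] at hyt
  have e : y - (t + c') = y + -c' - t := by abel
  rw [e]
  exact hyt

end Pool.Agent.TNL
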