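import Pool.Agent.Rog.TargetsG

/-!
# Covering a convex body by translates of its symmetrisation: the covering function

`D K = (K - K) / 2`; `cov K x` is the volume of `K ∩ (x + D K)`.
-/

set_option autoImplicit false

open MeasureTheory Set Filter Topology
open scoped Pointwise Real

namespace Pool.Agent.TNL

open Pool.Agent.Rog

variable {n : ℕ}

/-- The symmetrisation of `K`. -/
def D (K : Set (E n)) : Set (E n) := (1 / 2 : ℝ) • (K - K)

/-- The volume of `K ∩ (x + D K)`. -/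
noncomputable def cov (K : Set (E n)) (x : E n) : ℝ := volume.real (K ∩ {z | z - x ∈ D K})

/-- The `n`-th root of the normalised volume of `K ∩ (x + D K)`. -/
noncomputable def U (K : Set (E n)) (x : E n) : ℝ :=
  (cov K x / volume.real K) ^ ((1 : ℝ) / n)

lemma mem_D {K : Set (E n)} {z : E n} : z ∈ D K ↔ ∃ a ∈ K, ∃ b ∈ K, (2 : ℝ) • z = a - b := by
  constructor
  · rintro ⟨_, ⟨a, ha, b, hb, rfl⟩, rfl⟩
    refine ⟨a, ha, b, hb, ?_⟩
    change (2 : ℝ) • (1 / 2 : ℝ) • (a - b) = a - b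
    rw [smul_smul]
    norm_num
  · rintro ⟨a, ha, b, hb, h⟩
    refine ⟨a - b, ⟨a, ha, b, hb, rfl⟩, ?_⟩
    change (1 / 2 : ℝ) • (a - b) = z
    rw [← h, smul_smul]
    norm_num

lemma D_symm {K : Set (E n)} {z : E n} (hz : z ∈ D K) : -z ∈ D K := by
  obtain ⟨a, ha, b, hb, h⟩ := mem_D.1 hz
  refine mem_D.2 ⟨b, hb, a, ha, ?_⟩
  rw [smul_neg, h]
  abel

lemma D_cpt {K : Set (E n)} (hK : GB K) : IsCompact (D K) := by
  unfold D
  rw [sub_eq_add_neg]
  exact (hK.cpt.add hK.cpt.neg).smul _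

lemma D_cvx {K : Set (E n)} (hK : GB K) : Convex ℝ (D K) := (hK.cvx.sub hK.cvx).smul _

lemma sy_D {K : Set (E n)} : sy K ⊆ D K := by
  intro z hz
  refine mem_D.2 ⟨z, hz.1, -z, hz.2, ?_⟩
  rw [two_smul]
  abel

/-- `D K` is a symmetric body. -/
lemma D_body {K : Set (E n)} (hK : GB K) : SymBody (D K) := by
  refine ⟨D_cpt hK, D_cvx hK, ?_, fun z hz => D_symm hz⟩
  have h0 : (0 : E n) ∈ K := interior_subset hK.zero
  have hsub : (1 / 2 : ℝ) • K ⊆ D K := by
    rintro _ ⟨z, hz, rfl⟩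
    refine mem_D.2 ⟨z, hz, 0, h0, ?_⟩
    change (2 : ℝ) • (1 / 2 : ℝ) • z = z - 0
    rw [smul_smul, sub_zero]
    norm_num
  refine ⟨0, interior_maximal ((smul_set_mono interior_subset).trans hsub)
    (isOpen_interior.smul₀ (by norm_num)) ⟨0, hK.zero, by simp⟩⟩

/-- the set of the definition of `cov` is compact -/
lemma cov_cpt {K : Set (E n)} (hK : GB K) (x : E n) : IsCompact (K ∩ {z | z - x ∈ D K}) :=
  hK.cpt.inter_right ((D_cpt hK).isClosed.preimage (by fun_prop))

lemma cov_nonneg (K : Set (E n)) (x : E n) : 0 ≤ cov K x := measureReal_nonneg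

lemma U_nonneg (K : Set (E n)) (x : E n) : 0 ≤ U K x :=
  Real.rpow_nonneg (div_nonneg (cov_nonneg K x) measureReal_nonneg) _

lemma cov_le {K : Set (E n)} (hK : GB K) (x : E n) : cov K x ≤ volume.real K :=
  measureReal_mono inter_subset_left hK.cpt.measure_lt_top.ne

lemma vol_pos {K : Set (E n)} (hK : GB K) : 0 < volume.real K := by
  unfold Measure.real
  refine ENNReal.toReal_pos ?_ hK.cpt.measure_lt_top.ne
  exact (Measure.measure_pos_of_nonempty_interior _ ⟨0, hK.zero⟩).ne'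

lemma U_le_one {K : Set (E n)} (hK : GB K) (x : E n) : U K x ≤ 1 := by
  unfold U
  refine Real.rpow_le_one (div_nonneg (cov_nonneg K x) (vol_pos hK).le) ?_ (by positivity)
  rw [div_le_one (vol_pos hK)]
  exact cov_le hK x

lemma cov_eq {K : Set (E n)} (hn : 1 ≤ n) (hK : GB K) (x : E n) :
    cov K x = volume.real K * U K x ^ n := by
  have hv := vol_pos hK
  unfold U
  rw [one_div, Real.rpow_inv_natCast_pow (div_nonneg (cov_nonneg K x) hv.le) (by omega)]
  field_simp

/-- `n`-th root of the volume of a dilate -/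
lemma root_smul (hn : 1 ≤ n) (K : Set (E n)) {s : ℝ} (hs : 0 ≤ s) :
    volume.real (s • K) ^ ((1 : ℝ) / n) = s * volume.real K ^ ((1 : ℝ) / n) := by
  have h1 : volume.real (s • K) = s ^ n * volume.real K := by
    rw [Measure.real, Measure.addHaar_smul]
    simp only [finrank_euclideanSpace_fin]
    rw [ENNReal.toReal_mul, ENNReal.toReal_ofReal (abs_nonneg _), abs_of_nonneg (pow_nonneg hs n),
      Measure.real]
  rw [h1, Real.mul_rpow (pow_nonneg hs n) measureReal_nonneg, one_div,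
    Real.pow_rpow_inv_natCast hs (by omega)]

/-- **The main inequality**: sharp points have small central sections around them. -/
theorem key (hB : T_BMI) (hn : 1 ≤ n) {K : Set (E n)} (hK : GB K) {x y : E n} {s : ℝ}
    (hs0 : 0 ≤ s) (hs1 : s ≤ 1) (hy : y ∈ K) (hxy : y - x ∈ s • D K) :
    1 - s + W K y ≤ 2 * U K x := by
  have hv := vol_pos hK
  obtain ⟨z, hz, hzy⟩ := hxy
  obtain ⟨a, ha, b, hb, hab⟩ := mem_D.1 hz
  -- the two sets
  set A : Set (E n) := (fun f => f + s • b) '' ((1 - s) • K) with hA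
  set B : Set (E n) := {w | w ∈ K ∧ (2 : ℝ) • y - w ∈ K} with hBdef
  have hAc : IsCompact A := (hK.cpt.smul (1 - s)).image (by fun_prop)
  have hAv : Convex ℝ A := by
    have h1 : Convex ℝ ((1 - s) • K) := hK.cvx.smul _
    have h2 : A = (1 - s) • K + {s • b} := by
      rw [Set.add_singleton]
    rw [h2]
    exact h1.add (convex_singleton _)
  have hAne : A.Nonempty := ⟨(1 - s) • 0 + s • b, _, ⟨0, interior_subset hK.zero, rfl⟩, rfl⟩
  have hBc : IsCompact B := by
    have : B = K ∩ (fun w : E n => (2 : ℝ) • y - w) ⁻¹' K := rfl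
    rw [this]
    exact hK.cpt.inter_right (hK.cpt.isClosed.preimage (by fun_prop))
  have hBv : Convex ℝ B := by
    intro p hp q hq α β hα hβ hαβ
    refine ⟨hK.cvx hp.1 hq.1 hα hβ hαβ, ?_⟩
    have h := hK.cvx hp.2 hq.2 hα hβ hαβ
    have e : (2 : ℝ) • y - (α • p + β • q) = α • ((2 : ℝ) • y - p) + β • ((2 : ℝ) • y - q) := by
      have h2 : (2 : ℝ) • y = (α + β) • (2 : ℝ) • y := by rw [hαβ, one_smul]
      rw [smul_sub, smul_sub]
      nth_rewrite 1 [h2]
      rw [add_smul]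
      abel
    rw [e]
    exact h
  have hBne : B.Nonempty := ⟨y, hy, by rw [two_smul, add_sub_cancel_right]; exact hy⟩
  have hBM := hB n A B hn hAc hAv hAne hBc hBv hBne (1 / 2) (1 / 2) (by norm_num) (by norm_num)
    (by norm_num)
  have hsub : (1 / 2 : ℝ) • A + (1 / 2 : ℝ) • B ⊆ K ∩ {z | z - x ∈ D K} := by
    rintro _ ⟨_, ⟨_, ⟨_, ⟨f, hf, rfl⟩, rfl⟩, rfl⟩, _, ⟨w, hw, rfl⟩, rfl⟩
    change (1 / 2 : ℝ) • ((1 - s) • f + s • b) + (1 / 2 : ℝ) • w ∈ K ∩ {z | z - x ∈ D K}
    have h1 : (1 - s) • f + s • b ∈ K := hK.cvx hf hb (by linarith) hs0 (by ring)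
    have h2 : (1 - s) • f + s • a ∈ K := hK.cvx hf ha (by linarith) hs0 (by ring)
    refine ⟨hK.cvx h1 hw.1 (by norm_num) (by norm_num) (by norm_num), ?_⟩
    refine mem_D.2 ⟨(1 - s) • f + s • a, h2, (2 : ℝ) • y - w, hw.2, ?_⟩
    have e1 : (2 : ℝ) • y = (2 : ℝ) • x + s • (a - b) := by
      rw [← hab, smul_comm s (2 : ℝ) z, ← smul_add]
      congr 1
      have : s • z = y - x := hzy
      rw [this]
      abel
    rw [e1]
    module
  have h3 : volume.real A ^ ((1 : ℝ) / n) = (1 - s) * volume.real K ^ ((1 : ℝ) / n) := by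
    rw [← root_smul hn K (by linarith : (0 : ℝ) ≤ 1 - s)]
    congr 1
    rw [hA, Measure.real, Measure.real, image_add_right, measure_preimage_add_right]
  have h4 : volume.real B = mac K y := rfl
  have h5 : volume.real ((1 / 2 : ℝ) • A + (1 / 2 : ℝ) • B) ^ ((1 : ℝ) / n) ≤
      cov K x ^ ((1 : ℝ) / n) :=
    Real.rpow_le_rpow measureReal_nonneg
      (measureReal_mono hsub (cov_cpt hK x).measure_lt_top.ne) (by positivity)
  rw [h3, h4] at hBM
  have h6 := hBM.trans h5
  have hW : W K y = mac K y ^ ((1 : ℝ) / n) / volume.real K ^ ((1 : ℝ) / n) := by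
    unfold W
    rw [Real.div_rpow (show 0 ≤ mac K y from measureReal_nonneg) hv.le]
  have hU : U K x = cov K x ^ ((1 : ℝ) / n) / volume.real K ^ ((1 : ℝ) / n) := by
    unfold U
    rw [Real.div_rpow (cov_nonneg K x) hv.le]
  have hr : 0 < volume.real K ^ ((1 : ℝ) / n) := Real.rpow_pos_of_pos hv _
  rw [hW, hU, mul_div_assoc', le_div_iff₀ hr, add_mul, div_mul_cancel₀ _ hr.ne']
  linarith

/-- `U ≥ 1 / 2` on `K` -/
lemma half_le_U (hB : T_BMI) (hn : 1 ≤ n) {K : Set (E n)} (hK : GB K) {x : E n} (hx : x ∈ K) :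
    1 / 2 ≤ U K x := by
  have h0 : (0 : E n) ∈ (0 : ℝ) • D K := by
    have : (0 : E n) ∈ D K := sy_D ⟨interior_subset hK.zero, by
      rw [Set.mem_neg, neg_zero]
      exact interior_subset hK.zero⟩
    exact ⟨0, this, by simp⟩
  have h1 := key hB hn hK le_rfl zero_le_one hx (x := x) (y := x) (by rwa [sub_self])
  have h2 : 0 ≤ W K x := Real.rpow_nonneg (div_nonneg measureReal_nonneg measureReal_nonneg) _
  linarith

end Pool.Agent.TNL
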