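import Pool.Agent.TNL.Dcap
import Pool.Agent.Rog.CNT

/-!
# Number of separated sharp points
-/

set_option autoImplicit false

open MeasureTheory Set Filter Topology
open scoped Pointwise Real

namespace Pool.Agent.TNL

open Pool.Agent.Rog Pool.Agent.Rog.CNT_

/-- The constant of the count. -/
noncomputable def d3 : ℝ := 160 * (4 / dd + 2) / dd

theorem count (hBI : T_BMI) (hWC : T_WCG) (hCAPV : T_CAPVG) (hSYB : T_SYB)
    (hDCAP : ∀ (n : ℕ) (K : Set (E n)) (x : E n) (t : ℝ), 1 ≤ n → HB K → x ∈ K →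
      1 / (n : ℝ) ≤ t → t ≤ 1 / 2 → U K x ≤ (1 + t) / 2 →
      1 / 4 * dd ^ n * volume.real (pol K) ≤ volume.real (dcap K x ((4 / dd + 1) * t)))
    (n : ℕ) (K : Set (E n)) (t : ℝ) (X : Finset (E n)) (hn : 1 ≤ n) (hKH : HB K)
    (ht1 : 1 / (n : ℝ) ≤ t) (ht2 : t ≤ 1 / 2) (hX : ∀ x ∈ X, x ∈ K ∧ U K x ≤ (1 + t) / 2)
    (hsep : ∀ x ∈ X, ∀ y ∈ X, x ≠ y → x - y ∉ t • sy K) : (X.card : ℝ) ≤ 4 * d3 ^ n := by
  classical
  have hK : GB K := hKH.toGB
  have hn0 : (0 : ℝ) < n := by exact_mod_cast hn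
  have ht0 : 0 < t := lt_of_lt_of_le (by positivity) ht1
  obtain ⟨hK0, hR0, hmac, hW0, hmacW, -⟩ := hWC n K hn hK
  obtain ⟨hM, hM0, -, -, hPc, hPv, hPi⟩ := hSYB n K hK
  obtain ⟨hP0, -⟩ := hWC n (pol K) hn ⟨hPc, hPv, hPi⟩
  have hMK : ∀ k ∈ sy K, k ∈ K := fun k hk => hk.1
  have hMvol : volume.real (sy K) = volume.real K * W K 0 ^ n := by
    rw [← hmac, hmacW]
  have hRh := hKH.half
  obtain ⟨R, hR⟩ : ∃ R : ℝ, R = W K 0 := ⟨_, rfl⟩
  rw [← hR] at hR0 hMvol hRh
  have hdd : (0 : ℝ) < dd := by unfold dd; norm_num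
  rcases X.eq_empty_or_nonempty with hXe | hXne
  · subst hXe
    have : 0 ≤ 4 * d3 ^ n := by
      unfold d3
      positivity
    simpa using this
  -- supporting functions
  have hsup : ∀ x : E n, ∃ (a : ℝ) (g : E n), x ∈ X → (∀ w ∈ K, W K w ≤ a - inner ℝ g w) ∧
      a - inner ℝ g x ≤ t ∧ R ≤ a ∧ a ≤ 2 + t := by
    rw [hR]
    intro x
    by_cases hx : x ∈ X
    · obtain ⟨a, g, h⟩ := supp hBI hWC hn hK (hX x hx).1 ht0.le (hX x hx).2
      exact ⟨a, g, fun _ => h⟩
    · exact ⟨0, 0, fun h => absurd h hx⟩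
  choose a g hag using hsup
  set B : ℝ := 4 / dd with hB
  have hB0 : 1 < B := by
    rw [hB]
    unfold dd
    norm_num
  set v : E n → E n := fun x => (a x)⁻¹ • g x with hv
  have hvP : ∀ x ∈ X, v x ∈ pol K := by
    intro x hx w hw
    obtain ⟨h1, -, h3, -⟩ := hag x hx
    have h4 := h1 w hw
    have h5 := hW0 w
    rw [real_inner_smul_left, inv_mul_le_iff₀ (by linarith)]
    linarith
  set G : E n → Set (E n) := fun x => ((1 / 2 : ℝ) • v x) +ᵥ ((1 / 2 : ℝ) •
    dcap K x ((B + 1) * t)) with hG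
  have hGP : ∀ x ∈ X, MeasurableSet (G x) ∧ G x ⊆ pol K := by
    intro x hx
    refine ⟨(compact_aff _ _ (dcap_compact hPc x _)).measurableSet, ?_⟩
    intro z hz
    obtain ⟨y, hy, rfl⟩ := mem_aff.1 hz
    exact hPv (hvP x hx) hy.1 (by norm_num) (by norm_num) (by norm_num)
  set N : ℝ := (X.card : ℝ) with hN
  have hN0 : 0 < N := by
    rw [hN]
    exact_mod_cast Finset.card_pos.2 hXne
  set θ : ℝ := N * ((dd / 2) ^ n / 4) with hθ
  have hθ0 : 0 < θ := by positivity
  have hvol : θ * volume.real (pol K) ≤ ∑ x ∈ X, volume.real (G x) := by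
    have h1 : ∀ x ∈ X, (dd / 2) ^ n / 4 * volume.real (pol K) ≤ volume.real (G x) := by
      intro x hx
      simp only [hG]
      rw [vol_aff _ _ (by norm_num)]
      have h2 := hDCAP n K x t hn hKH (hX x hx).1 ht1 ht2 (hX x hx).2
      have h3 : (0 : ℝ) < (1 / 2) ^ n := by positivity
      have h4 := mul_le_mul_of_nonneg_left h2 h3.le
      refine le_trans (le_of_eq ?_) h4
      rw [div_pow, div_pow, one_pow]
      ring
    calc θ * volume.real (pol K) = ∑ x ∈ X, (dd / 2) ^ n / 4 * volume.real (pol K) := by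
          rw [Finset.sum_const, nsmul_eq_mul, hθ]
          ring
      _ ≤ _ := Finset.sum_le_sum h1
  obtain ⟨u, huP, I, hIX, hIG, hIc⟩ := avg X (pol K) G hPc hP0 hGP θ hθ0 hvol
  have hIne : I.Nonempty := by
    rw [← Finset.card_pos]
    have : (0 : ℝ) < I.card := lt_of_lt_of_le hθ0 hIc
    exact_mod_cast this
  -- key facts for x in I
  have hkey : ∀ x ∈ I, (∀ w ∈ K, (a x - inner ℝ (g x) w) / (10 * R) ≤ 1 - inner ℝ u w) ∧
      1 - inner ℝ u x ≤ (B + 1) * t := by
    intro x hx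
    obtain ⟨h1, h2, h3, h4⟩ := hag x (hIX hx)
    obtain ⟨y, hy, huy⟩ := mem_aff.1 (hIG x hx)
    have hin : ∀ w, inner ℝ u w = (1 / 2) * (inner ℝ (g x) w / a x) + (1 / 2) * inner ℝ y w := by
      intro w
      rw [huy, inner_add_left, real_inner_smul_left, real_inner_smul_left,
        real_inner_smul_left, div_eq_inv_mul (inner ℝ (g x) w)]
    have ha0 : 0 < a x := lt_of_lt_of_le hR0 h3
    refine ⟨fun w hw => ?_, ?_⟩
    · rw [hin w]
      have h5 : inner ℝ y w ≤ 1 := hy.1 w hw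
      have h6 : 0 ≤ a x - inner ℝ (g x) w := le_trans (hW0 w) (h1 w hw)
      have h7 : (a x - inner ℝ (g x) w) / (10 * R) ≤
          (1 / 2) * ((a x - inner ℝ (g x) w) / a x) := by
        rw [div_le_iff₀ (by positivity)]
        have : (1 / 2) * ((a x - inner ℝ (g x) w) / a x) * (10 * R) =
          (a x - inner ℝ (g x) w) * (5 * R / a x) := by ring
        rw [this]
        have h8 : 1 ≤ 5 * R / a x := by
          rw [le_div_iff₀ ha0]
          linarith
        nlinarith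
      have h8 : (a x - inner ℝ (g x) w) / a x = 1 - inner ℝ (g x) w / a x := by
        rw [sub_div, div_self ha0.ne']
      rw [h8] at h7
      linarith
    · rw [hin x]
      have h5 : 1 - inner ℝ y x ≤ (B + 1) * t := hy.2
      have h6 : 1 - inner ℝ (g x) x / a x ≤ 2 * t := by
        have h8 : (a x - inner ℝ (g x) x) / a x = 1 - inner ℝ (g x) x / a x := by
          rw [sub_div, div_self ha0.ne']
        rw [← h8, div_le_iff₀ ha0]
        nlinarith
      nlinarith
  -- the small copies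
  set H : E n → Set (E n) := fun x => ((1 - t / 4) • x) +ᵥ ((t / 4) • sy K) with hH
  have hHvol : ∀ x, volume.real (H x) = (t / 4) ^ n * volume.real (sy K) := fun x =>
    vol_aff _ _ (by linarith) _
  have hHm : ∀ x, MeasurableSet (H x) := fun x => (compact_aff _ _ hM.cpt).measurableSet
  have hHd : (I : Set (E n)).PairwiseDisjoint H := by
    intro x hx y hy hxy
    rw [Function.onFun, Set.disjoint_left]
    intro z hz1 hz2
    obtain ⟨k1, hk1, e1⟩ := mem_aff.1 hz1
    obtain ⟨k2, hk2, e2⟩ := mem_aff.1 hz2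
    apply hsep x (hIX hx) y (hIX hy) hxy
    have e3 : (1 - t / 4) • (x - y) = (t / 4) • (k2 - k1) := by
      have := e1.symm.trans e2
      rw [smul_sub, smul_sub]
      rw [sub_eq_sub_iff_add_eq_add, this]
      abel
    have hpos : 0 < 1 - t / 4 := by linarith
    have e4 : x - y = ((t / 2) / (1 - t / 4)) • ((1 / 2 : ℝ) • k2 + (1 / 2 : ℝ) • (-k1)) := by
      have : x - y = (1 - t / 4)⁻¹ • ((1 - t / 4) • (x - y)) := by
        rw [smul_smul, inv_mul_cancel₀ hpos.ne', one_smul]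
      rw [this, e3, smul_smul, smul_neg, ← sub_eq_add_neg, ← smul_sub, smul_smul]
      congr 1
      rw [div_eq_mul_inv]
      ring
    have e5 : x - y ∈ ((t / 2) / (1 - t / 4)) • sy K := by
      rw [e4]
      exact ⟨_, hM.cvx hk2 (hM.symm k1 hk1) (by norm_num) (by norm_num) (by norm_num), rfl⟩
    refine smul_mono hM (by positivity) ?_ e5
    rw [div_le_iff₀ hpos]
    nlinarith
  have hHsub : ∀ x ∈ I, H x ⊆ {w | w ∈ K ∧ 1 - inner ℝ u w ≤ (B + 2) * t} := by
    intro x hx w hw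
    obtain ⟨k, hk, rfl⟩ := mem_aff.1 hw
    have hxK : x ∈ K := (hX x (hIX hx)).1
    refine ⟨hK.cvx hxK (hMK k hk) (by linarith) (by linarith) (by ring), ?_⟩
    rw [inner_add_right, inner_smul_right, inner_smul_right]
    have h1 : 1 - inner ℝ u x ≤ (B + 1) * t := (hkey x hx).2
    have h2 : inner ℝ u x ≤ 1 := huP x hxK
    have h3 : -inner ℝ u k ≤ 1 := by
      have := huP (-k) (hMK _ (hM.symm k hk))
      rwa [inner_neg_right] at this
    have e1 : 1 - ((1 - t / 4) * inner ℝ u x + t / 4 * inner ℝ u k) =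
        (1 - t / 4) * (1 - inner ℝ u x) + t / 4 * (1 - inner ℝ u k) := by ring
    rw [e1]
    have h4 : (1 - t / 4) * (1 - inner ℝ u x) ≤ 1 - inner ℝ u x := by nlinarith
    have h5 : t / 4 * (1 - inner ℝ u k) ≤ t / 4 * 2 := by
      refine mul_le_mul_of_nonneg_left (by linarith) (by linarith)
    linarith
  have hcapv : volume.real {w | w ∈ K ∧ 1 - inner ℝ u w ≤ (B + 2) * t} ≤
      (20 * ((B + 2) * t)) ^ n * volume.real (sy K) := by
    obtain ⟨x, hx⟩ := hIne
    obtain ⟨h1, -⟩ := hag x (hIX hx)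
    have h2 := hCAPV n K (a x) (g x) hn hK h1 (10 * R * ((B + 2) * t)) (by positivity)
    have h3 : (2 * (10 * R * ((B + 2) * t))) ^ n * volume.real K =
        (20 * ((B + 2) * t)) ^ n * volume.real (sy K) := by
      rw [hMvol]
      have : 2 * (10 * R * ((B + 2) * t)) = 20 * ((B + 2) * t) * R := by ring
      rw [this, mul_pow]
      ring
    rw [h3] at h2
    refine le_trans ?_ h2
    refine measureReal_mono ?_ ?_
    · rintro w ⟨hw, hw2⟩
      refine ⟨hw, ?_⟩
      have h5 := (hkey x hx).1 w hw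
      rw [div_le_iff₀ (by positivity)] at h5
      nlinarith
    · exact (lt_of_le_of_lt (measure_mono (fun w hw => hw.1)) hK.cpt.measure_lt_top).ne
  have hcard : (I.card : ℝ) * ((t / 4) ^ n * volume.real (sy K)) ≤
      (20 * ((B + 2) * t)) ^ n * volume.real (sy K) := by
    refine le_trans ?_ hcapv
    have h1 : volume.real (⋃ x ∈ I, H x) = ∑ x ∈ I, volume.real (H x) := by
      refine measureReal_biUnion_finset hHd (fun x _ => hHm x) (fun x _ => ?_)
      exact (compact_aff _ _ hM.cpt).measure_lt_top.ne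
    have h2 : ∑ x ∈ I, volume.real (H x) =
        (I.card : ℝ) * ((t / 4) ^ n * volume.real (sy K)) := by
      rw [Finset.sum_congr rfl (fun x _ => hHvol x), Finset.sum_const, nsmul_eq_mul]
    rw [← h2, ← h1]
    refine measureReal_mono (iUnion₂_subset hHsub) ?_
    exact (lt_of_le_of_lt (measure_mono (fun w hw => hw.1)) hK.cpt.measure_lt_top).ne
  have hcard2 : (I.card : ℝ) ≤ (80 * (B + 2)) ^ n := by
    have h1 : (I.card : ℝ) * (t / 4) ^ n ≤ (20 * ((B + 2) * t)) ^ n := by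
      rw [← mul_assoc] at hcard
      exact le_of_mul_le_mul_right hcard hM0
    have h2 : (20 * ((B + 2) * t)) ^ n = (80 * (B + 2)) ^ n * (t / 4) ^ n := by
      rw [← mul_pow]
      congr 1
      ring
    rw [h2] at h1
    exact le_of_mul_le_mul_right h1 (by positivity)
  have hfin : N * ((dd / 2) ^ n / 4) ≤ (80 * (B + 2)) ^ n := hIc.trans hcard2
  have hpos2 : (0 : ℝ) < (dd / 2) ^ n / 4 := by positivity
  rw [← le_div_iff₀ hpos2] at hfin
  refine hfin.trans (le_of_eq ?_)
  unfold d3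
  rw [← hB]
  rw [div_div_eq_mul_div, mul_comm _ (4 : ℝ), mul_div_assoc, ← div_pow]
  congr 2
  field_simp
  ring

end Pool.Agent.TNL
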