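import Pool.Agent.TNL.Supp
import Pool.Agent.Rog.DCAPG

/-!
# Dual caps at sharp points are big
-/

set_option autoImplicit false

open MeasureTheory Set Filter Topology
open scoped Pointwise Real

namespace Pool.Agent.TNL

open Pool.Agent.Rog

/-- The constant of the dual caps. -/
noncomputable def dd : ℝ := 1 / 48000000

/-- Half of the central symmetry. -/
structure HB {n : ℕ} (K : Set (E n)) : Prop extends GB K where
  half : 1 / 2 ≤ W K 0

open Pool.Agent.Rog.DCAPG_ in
/-- Dual caps at sharp points are big. -/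
theorem dcap_big (hB : T_BMI) (hWC : T_WCG) (hSYB : T_SYB) (hBM : T_BM) (hSL : T_SL)
    (hDIFF : T_DIFF) (hPOLB : T_POLB) (hPOLD : T_POLD) (hSHELL : T_SHELLG) (hPEEL : T_PEELG)
    {n : ℕ} {K : Set (E n)} {x : E n} {t : ℝ} (hn : 1 ≤ n) (hKH : HB K) (hx : x ∈ K)
    (htn : 1 / (n : ℝ) ≤ t) (ht2 : t ≤ 1 / 2) (hU : U K x ≤ (1 + t) / 2) :
    1 / 4 * dd ^ n * volume.real (pol K) ≤ volume.real (dcap K x ((4 / dd + 1) * t)) := by
  have hK : GB K := hKH.toGB
  have hhalf := hKH.half
  have hn0 : (0 : ℝ) < n := by exact_mod_cast hn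
  have ht : 0 < t := lt_of_lt_of_le (by positivity) htn
  have ht1 : t ≤ 1 := by linarith
  obtain ⟨hV, hR, hR0, hW0, hmac, -, -, -⟩ := hWC n K hn hK
  obtain ⟨hSb, hSv, -, hpsub, hpKc, -, -⟩ := hSYB n K hK
  obtain ⟨a, g, hg, hgx, ha1, ha2⟩ := supp hB hWC hn hK hx ht.le hU
  obtain ⟨h0S, hpS⟩ := hPOLB.2 n (sy K) hSb
  -- the point p
  have hpmem : (1 - t) • x ∈ K := by
    have := hK.cvx hx (interior_subset hK.zero) (by linarith : (0 : ℝ) ≤ 1 - t) ht.le (by ring)
    simpa using this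
  have hWp : W K ((1 - t) • x) ≤ (6 * t) * W K 0 := by
    have h1 := hg _ hpmem
    rw [inner_smul_right] at h1
    nlinarith
  set A := AA K x t with hA
  set M := A ∩ -A with hM
  have hMvol : volume.real M ≤ (6 * t) ^ n * volume.real (sy K) := by
    have h0 : volume.real (sy K) = volume.real K * W K 0 ^ n := by
      rw [← hR0, hmac]
    rw [hM, hA, vol_M, hmac, h0]
    calc volume.real K * W K ((1 - t) • x) ^ n ≤ volume.real K * ((6 * t) * W K 0) ^ n := by
          gcongr
          exact hW0 _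
      _ = _ := by rw [mul_pow]; ring
  have hAc : IsCompact A := cpt_AA hK x t
  have hAv : Convex ℝ A := cvx_AA hK x t
  have hA0 : (0 : E n) ∈ interior A := int_smul hK.zero ht (smul_sub hK hx ht.le ht1)
  have hM0 : (0 : E n) ∈ interior M := int_smul h0S ht (smul_sub' hK hx ht.le ht1)
  have hMb : SymBody M := by
    refine ⟨hAc.inter hAc.neg, hAv.inter hAv.neg, ⟨0, hM0⟩, fun y hy => ⟨?_, ?_⟩⟩
    · exact hy.2
    · rw [Set.mem_neg, neg_neg]
      exact hy.1
  obtain ⟨hpAc, hpAv, hpA0⟩ := hPOLB.1 n A hAc hAv hA0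
  have hbm := hBM n M hn hMb
  have hsl := hSL n (sy K) hn hSb
  -- the polar of M
  have hPM : volume.real (pol M) ≤ 4 ^ n * volume.real (pol A) := by
    refine le_trans (measureReal_mono (hPOLD n A hAc hAv hA0) ?_) (hDIFF n (pol A) hpAc hpAv ⟨0, hpA0⟩)
    rw [sub_eq_add_neg]
    exact (hpAc.add hpAc.neg).measure_lt_top.ne
  have hPS : volume.real (pol K) ≤ volume.real (pol (sy K)) :=
    measureReal_mono hpsub hpS.cpt.measure_lt_top.ne
  have hsl2 : volume.real (sy K) * volume.real (pol K) ≤ (713200 / n) ^ n :=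
    le_trans (by gcongr) hsl
  set vK := volume.real (sy K)
  set vP := volume.real (pol K)
  set vM := volume.real M
  set vPM := volume.real (pol M)
  set vPA := volume.real (pol A)
  have hvP : 0 ≤ vP := measureReal_nonneg
  have hvPM : 0 ≤ vPM := measureReal_nonneg
  have hvPA : 0 ≤ vPA := measureReal_nonneg
  have h1 : (3 / (8 * n) : ℝ) ^ n * vP ≤ ((6 * t) * (713200 / n)) ^ n * vPM := by
    calc (3 / (8 * n) : ℝ) ^ n * vP ≤ (vM * vPM) * vP := by gcongr
      _ ≤ (((6 * t) ^ n * vK) * vPM) * vP := by gcongr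
      _ = (6 * t) ^ n * vPM * (vK * vP) := by ring
      _ ≤ (6 * t) ^ n * vPM * (713200 / n) ^ n := by gcongr
      _ = _ := by rw [mul_pow (6 * t)]; ring
  have h2 : (3 / (8 * n) : ℝ) ^ n * vP ≤ ((6 * t) * (713200 / n) * 4) ^ n * vPA := by
    refine h1.trans ?_
    calc ((6 * t) * (713200 / n)) ^ n * vPM ≤ ((6 * t) * (713200 / n)) ^ n * (4 ^ n * vPA) := by
          gcongr
      _ = _ := by rw [mul_pow _ (4 : ℝ)]; ring
  have hdd : (0 : ℝ) < dd := by unfold dd; norm_num
  have h3 : (dd / t) ^ n * vP ≤ vPA := by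
    have hpos : (0 : ℝ) < ((6 * t) * (713200 / n) * 4) ^ n := by positivity
    refine le_of_mul_le_mul_left ?_ hpos
    refine le_trans ?_ h2
    rw [← mul_assoc, ← mul_pow]
    gcongr
    have e : (6 * t) * (713200 / n) * 4 * (dd / t) = (24 * 713200 * dd) / n := by
      field_simp
      ring
    rw [e]
    have e2 : (3 / (8 * n) : ℝ) = (3 / 8) / n := by
      field_simp
    rw [e2]
    gcongr
    unfold dd
    norm_num
  -- the shell
  have hs : 0 < 4 * t / dd := by positivity
  have h4 := hSHELL n K x t (4 * t / dd) hK hx ht ht2 hs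
  have h5 : (dd / t) ^ n * vP ≤ (2 / (4 * t / dd)) ^ n * vP +
      (1 / t) ^ n * volume.real (shull K x (4 * t / dd)) := h3.trans h4
  have e6 : 2 / (4 * t / dd) = (1 / 2) * (dd / t) := by
    field_simp
    ring
  have h7 : ((1 : ℝ) / 2) ^ n ≤ 1 / 2 := by
    calc ((1 : ℝ) / 2) ^ n ≤ (1 / 2) ^ 1 :=
          pow_le_pow_of_le_one (by norm_num) (by norm_num) hn
      _ = 1 / 2 := by norm_num
  have h8 : 1 / 2 * ((dd / t) ^ n * vP) ≤ (1 / t) ^ n * volume.real (shull K x (4 * t / dd)) := by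
    rw [e6, mul_pow, mul_assoc] at h5
    have : (1 / 2) ^ n * ((dd / t) ^ n * vP) ≤ 1 / 2 * ((dd / t) ^ n * vP) := by gcongr
    linarith
  have h9 : 1 / 2 * (dd ^ n * vP) ≤ volume.real (shull K x (4 * t / dd)) := by
    have hpos : (0 : ℝ) < (1 / t) ^ n := by positivity
    refine le_of_mul_le_mul_left ?_ hpos
    refine le_trans (le_of_eq ?_) h8
    rw [div_pow, div_pow, one_pow]
    ring
  have h10 := hPEEL n K x (4 * t / dd) hn hK hx hs.le
  have h11 : volume.real (dcap K x (4 * t / dd + 1 / n)) ≤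
      volume.real (dcap K x ((4 / dd + 1) * t)) := by
    refine measureReal_mono ?_ ?_
    · rintro y ⟨hy1, hy2⟩
      refine ⟨hy1, hy2.trans ?_⟩
      have : (4 / dd + 1) * t = 4 * t / dd + t := by ring
      rw [this]
      linarith
    · have : dcap K x ((4 / dd + 1) * t) ⊆ pol K := fun y hy => hy.1
      exact ((measure_mono this).trans_lt hpKc.measure_lt_top).ne
  linarith

end Pool.Agent.TNL
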