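import Pool.Agent.TNL.Count

/-!
# Number of sharp points of a net
-/

set_option autoImplicit false

open MeasureTheory Set Filter Topology
open scoped Pointwise Real

namespace Pool.Agent.TNL

open Pool.Agent.Rog

theorem net_card {n : ℕ} {K : Set (E n)} (hP : T_PACK) (hM : T_MAXB) (hS : T_SYB) {t : ℝ}
    (hC : ∀ X : Finset (E n), (∀ x ∈ X, x ∈ K ∧ U K x ≤ (1 + t) / 2) →
      (∀ x ∈ X, ∀ y ∈ X, x ≠ y → x - y ∉ t • sy K) → (X.card : ℝ) ≤ 4 * d3 ^ n)
    (Y : Finset (E n)) (hn : 1 ≤ n) (hK : GB K)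
    (hY : ∀ x ∈ Y, x ∈ K ∧ U K x ≤ (1 + t) / 2)
    (hsep : ∀ x ∈ Y, ∀ y ∈ Y, x ≠ y → x - y ∉ (1 / (2 * n) : ℝ) • sy K)
    (ht : 1 / (n : ℝ) ≤ t) : (Y.card : ℝ) ≤ 4 * (5 * d3 * n * t) ^ n := by
  classical
  have hn' : (1 : ℝ) ≤ n := by exact_mod_cast hn
  have hn0 : (0 : ℝ) < n := by linarith
  have ht0 : 0 < t := lt_of_lt_of_le (by positivity) ht
  have hr0 : (0 : ℝ) < 1 / (2 * n) := by positivity
  have hnt : 1 ≤ n * t := by
    have := mul_le_mul_of_nonneg_left ht hn0.le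
    rwa [mul_one_div_cancel hn0.ne'] at this
  have hd3 : (0 : ℝ) ≤ d3 := by
    unfold d3 dd; norm_num
  have hsb : SymBody (sy K) := (hS n K hK).1
  obtain ⟨X, hXY, hXsep, hXcov⟩ := hM n (sy K) (Y : Set (E n)) t hsb
    (Y.finite_toSet.isBounded) ht0
  have hX : (X.card : ℝ) ≤ 4 * d3 ^ n :=
    hC X (fun x hx => hY x (Finset.mem_coe.mp (hXY x hx))) hXsep
  have hsub : Y ⊆ X.biUnion (fun x => Y.filter (fun z => z - x ∈ t • sy K)) := by
    intro z hz
    obtain ⟨x, hx, hzx⟩ := hXcov z (Finset.mem_coe.mpr hz)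
    exact Finset.mem_biUnion.mpr ⟨x, hx, Finset.mem_filter.mpr ⟨hz, hzx⟩⟩
  have hcard : (Y.card : ℝ) ≤ ∑ x ∈ X, ((Y.filter (fun z => z - x ∈ t • sy K)).card : ℝ) := by
    have := (Finset.card_le_card hsub).trans Finset.card_biUnion_le
    exact_mod_cast this
  have heach : ∀ x ∈ X, ((Y.filter (fun z => z - x ∈ t • sy K)).card : ℝ) ≤ (5 * (n * t)) ^ n := by
    intro x _
    have h1 := hP n (sy K) (Y.filter (fun z => z - x ∈ t • sy K)) x t (1 / (2 * n)) hsb hr0 ht0.le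
      (by intro z hz; exact (Finset.mem_filter.mp hz).2)
      (by
        intro z hz w hw hne
        exact hsep z (Finset.mem_filter.mp hz).1 w (Finset.mem_filter.mp hw).1 hne)
    refine h1.trans ?_
    have e1 : (2 * t + 1 / (2 * (n : ℝ))) / (1 / (2 * n)) = 4 * (n * t) + 1 := by
      field_simp; ring
    rw [e1]
    exact pow_le_pow_left₀ (by positivity) (by linarith) n
  calc (Y.card : ℝ) ≤ ∑ x ∈ X, ((Y.filter (fun z => z - x ∈ t • sy K)).card : ℝ) := hcard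
    _ ≤ ∑ _x ∈ X, (5 * (n * t)) ^ n := Finset.sum_le_sum heach
    _ = X.card * (5 * (n * t)) ^ n := by rw [Finset.sum_const, nsmul_eq_mul]
    _ ≤ (4 * d3 ^ n) * (5 * (n * t)) ^ n := by
        apply mul_le_mul_of_nonneg_right hX; positivity
    _ = 4 * (5 * d3 * n * t) ^ n := by
        rw [mul_assoc, ← mul_pow]; congr 2; ring

end Pool.Agent.TNL
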