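import Pool.Agent.TNL.Base

/-!
# The affine majorant at a sharp point
-/

set_option autoImplicit false

open MeasureTheory Set Filter Topology
open scoped Pointwise Real

namespace Pool.Agent.TNL

open Pool.Agent.Rog

variable {n : ℕ}

/-- **Sharp points.**  If `U K x ≤ (1 + t) / 2`, some affine function lies above `W K` on `K`, is at
most `t` at `x` and at most `2 + t` at the origin. -/
theorem supp (hB : T_BMI) (hWC : T_WCG) (hn : 1 ≤ n) {K : Set (E n)} (hK : GB K) {x : E n}
    (hx : x ∈ K) {t : ℝ} (ht : 0 ≤ t) (hU : U K x ≤ (1 + t) / 2) :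
    ∃ (a : ℝ) (g : E n), (∀ w ∈ K, W K w ≤ a - inner ℝ g w) ∧ a - inner ℝ g x ≤ t ∧ W K 0 ≤ a ∧
      a ≤ 2 + t := by
  obtain ⟨-, -, -, -, -, hWc, -, hW1⟩ := hWC n K hn hK
  have hD := D_body hK
  have h0K : (0 : E n) ∈ K := interior_subset hK.zero
  have hD0 : D K ∈ 𝓝 (0 : E n) := by
    have hsub : (1 / 2 : ℝ) • interior K ⊆ D K := by
      rintro _ ⟨z, hz, rfl⟩
      refine mem_D.2 ⟨z, interior_subset hz, 0, h0K, ?_⟩
      change (2 : ℝ) • (1 / 2 : ℝ) • z = z - 0
      rw [smul_smul, sub_zero]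
      norm_num
    exact Filter.mem_of_superset ((isOpen_interior.smul₀ (by norm_num : (1 / 2 : ℝ) ≠ 0)).mem_nhds
      ⟨0, hK.zero, by simp⟩) hsub
  have hgc : Continuous (gauge (D K)) := continuous_gauge hD.cvx hD0
  set P : Set (E n × ℝ) := {p | t + gauge (D K) (p.1 - x) < p.2} with hP
  set A : Set (E n × ℝ) := {p | p.1 ∈ K ∧ p.2 ≤ W K p.1} with hA
  have hPo : IsOpen P := by
    refine isOpen_lt ?_ continuous_snd
    exact continuous_const.add (hgc.comp (continuous_fst.sub continuous_const))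
  have habs : Absorbent ℝ (D K) := absorbent_nhds_zero hD0
  have hPc : Convex ℝ P := by
    intro p hp q hq a b ha hb hab
    change t + gauge (D K) ((a • p.1 + b • q.1) - x) < a * p.2 + b * q.2
    have e1 : (a • p.1 + b • q.1) - x = a • (p.1 - x) + b • (q.1 - x) := by
      have : x = (a + b) • x := by rw [hab, one_smul]
      nth_rewrite 1 [this]
      rw [add_smul, smul_sub, smul_sub]
      abel
    rw [e1]
    have h1 := gauge_add_le hD.cvx habs (a • (p.1 - x)) (b • (q.1 - x))
    rw [gauge_smul_of_nonneg ha, gauge_smul_of_nonneg hb, smul_eq_mul, smul_eq_mul] at h1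
    have h2 : t + gauge (D K) (p.1 - x) < p.2 := hp
    have h3 : t + gauge (D K) (q.1 - x) < q.2 := hq
    have h4 : t = a * t + b * t := by rw [← add_mul, hab, one_mul]
    rcases eq_or_lt_of_le ha with h | h
    · have hb1 : b = 1 := by linarith
      rw [← h, hb1] at h1 ⊢
      linarith
    · nlinarith
  have hAc : Convex ℝ A := by
    intro p hp q hq a b ha hb hab
    refine ⟨hK.cvx hp.1 hq.1 ha hb hab, ?_⟩
    change a * p.2 + b * q.2 ≤ W K (a • p.1 + b • q.1)
    refine le_trans ?_ (hWc p.1 hp.1 q.1 hq.1 a b ha hb hab)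
    have := mul_le_mul_of_nonneg_left hp.2 ha
    have := mul_le_mul_of_nonneg_left hq.2 hb
    linarith
  have hdis : Disjoint P A := by
    rw [Set.disjoint_left]
    rintro p hp ⟨hpK, hpW⟩
    have h1 : t + gauge (D K) (p.1 - x) < p.2 := hp
    obtain ⟨b, hb0, hb1, hb2⟩ := exists_lt_of_gauge_lt habs
      (show gauge (D K) (p.1 - x) < p.2 - t by linarith)
    rcases le_total b 1 with h | h
    · have h2 := key hB hn hK hb0.le h hpK hb2
      linarith
    · have h2 := hW1 p.1
      linarith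
  obtain ⟨F, u, hFP, hFA⟩ := geometric_hahn_banach_open hPc hPo hAc hdis
  set V : E n →L[ℝ] ℝ := F.comp (ContinuousLinearMap.inl ℝ (E n) ℝ) with hV
  set b : ℝ := F ((0 : E n), (1 : ℝ)) with hb
  have hFd : ∀ (w : E n) (s : ℝ), F (w, s) = V w + s * b := by
    intro w s
    have h1 : (w, s) = (w, (0 : ℝ)) + s • ((0 : E n), (1 : ℝ)) := by
      ext <;> simp
    rw [h1, map_add, map_smul, smul_eq_mul]
    rfl
  have hA' : ∀ w ∈ K, ∀ r ≤ W K w, u ≤ V w + r * b := by
    intro w hw r hr
    rw [← hFd]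
    exact hFA (w, r) ⟨hw, hr⟩
  have hP' : ∀ w r, t + gauge (D K) (w - x) < r → V w + r * b < u := by
    intro w r hr
    rw [← hFd]
    exact hFP (w, r) hr
  have hb0 : b < 0 := by
    by_contra hneg
    push Not at hneg
    rcases eq_or_lt_of_le hneg with h | h
    · have h1 := hA' 0 h0K (W K 0) le_rfl
      have h2 := hP' 0 (t + gauge (D K) (0 - x) + 1) (by linarith)
      rw [← h] at h1 h2
      simp only [mul_zero, add_zero] at h1 h2
      linarith
    · have h1 := hA' 0 h0K (min (W K 0) ((u - 1) / b)) (min_le_left _ _)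
      rw [map_zero, zero_add] at h1
      have h3 := mul_le_mul_of_nonneg_right (min_le_right (W K 0) ((u - 1) / b)) h.le
      rw [div_mul_cancel₀ _ h.ne'] at h3
      linarith
  have hL : ∀ w, (u - V w) / b ≤ t + gauge (D K) (w - x) := by
    intro w
    by_contra hcon
    push Not at hcon
    have h1 := hP' w _ hcon
    rw [div_mul_cancel₀ _ hb0.ne] at h1
    linarith
  have hin : ∀ w, u / b - inner ℝ ((InnerProductSpace.toDual ℝ (E n)).symm ((1 / b) • V)) w =
      (u - V w) / b := by
    intro w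
    rw [InnerProductSpace.toDual_symm_apply]
    change u / b - (1 / b) * V w = (u - V w) / b
    ring
  have hmain : ∀ w ∈ K, W K w ≤ (u - V w) / b := by
    intro w hw
    rw [le_div_iff_of_neg hb0]
    have := hA' w hw _ le_rfl
    linarith
  refine ⟨u / b, (InnerProductSpace.toDual ℝ (E n)).symm ((1 / b) • V), fun w hw => ?_, ?_, ?_, ?_⟩
  · rw [hin]
    exact hmain w hw
  · rw [hin]
    have h1 := hL x
    rwa [sub_self, gauge_zero, add_zero] at h1
  · have h1 := hmain 0 h0K
    rwa [map_zero, sub_zero] at h1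
  · have h1 := hL 0
    rw [map_zero, sub_zero] at h1
    have h2 : gauge (D K) (0 - x) ≤ 2 := by
      refine gauge_le_of_mem (by norm_num) ?_
      refine ⟨(1 / 2 : ℝ) • (0 - x), ⟨0 - x, ⟨0, h0K, x, hx, rfl⟩, rfl⟩, ?_⟩
      change (2 : ℝ) • (1 / 2 : ℝ) • (0 - x) = 0 - x
      rw [smul_smul]
      norm_num
    linarith

end Pool.Agent.TNL
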